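import Pool.Agent.Helper30_Sph.Stmts

/-! # Lueck approximation for integer matrices (module LCK, squad SPH, MP_f80465_gt) -/

namespace Pool.Agent.Sph.H56

open Pool.Agent.Sph Pool.Agent.Helper30L2

noncomputable section

variable {G : Type} [Group G]

/-! ## the action on functions -/

/-- right translations -/
def rt {H : Type} [Group H] (π : G →* H) (M : Type) [AddCommGroup M] :
    G →* Module.End ℤ (H → M) where
  toFun g :=
    { toFun := fun y q => y (q * π g)
      map_add' := fun _ _ => rfl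
      map_smul' := fun _ _ => rfl }
  map_one' := by
    ext y q
    simp
  map_mul' g h := by
    ext y q
    simp [mul_assoc]

/-- the action of the group ring on functions -/
def act {H : Type} [Group H] (π : G →* H) (M : Type) [AddCommGroup M] :
    MonoidAlgebra ℤ G →ₐ[ℤ] Module.End ℤ (H → M) :=
  MonoidAlgebra.lift ℤ (Module.End ℤ (H → M)) G (rt π M)

theorem act_apply {H : Type} [Group H] (π : G →* H) (M : Type) [AddCommGroup M]
    (φ : MonoidAlgebra ℤ G) (y : H → M) (q : H) :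
    act π M φ y q = φ.coeff.sum (fun h c => c • y (q * π h)) := by
  rw [act, MonoidAlgebra.lift_apply, Finsupp.sum, LinearMap.sum_apply, Finset.sum_apply]
  rfl

/-- the regular representation -/
def rg {Q : Type} [Group Q] [Fintype Q] [DecidableEq Q] (π : G →* Q) : G →* Matrix Q Q ℤ where
  toFun g := Matrix.of fun q q' => if q * π g = q' then 1 else 0
  map_one' := by
    ext q q'
    simp [Matrix.one_apply]
  map_mul' g h := by
    ext q q'
    rw [Matrix.mul_apply, Finset.sum_eq_single (q * π g)]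
    · simp [mul_assoc]
    · intro b _ hb
      simp [Ne.symm hb]
    · intro hb
      exact absurd (Finset.mem_univ _) hb

def rho {Q : Type} [Group Q] [Fintype Q] [DecidableEq Q] (π : G →* Q) :
    MonoidAlgebra ℤ G →ₐ[ℤ] Matrix Q Q ℤ :=
  MonoidAlgebra.lift ℤ (Matrix Q Q ℤ) G (rg π)

theorem rho_apply {Q : Type} [Group Q] [Fintype Q] [DecidableEq Q] (π : G →* Q)
    (φ : MonoidAlgebra ℤ G) (q q' : Q) :
    rho π φ q q' = φ.coeff.sum (fun h c => if q * π h = q' then c else 0) := by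
  rw [rho, MonoidAlgebra.lift_apply, Finsupp.sum, Matrix.sum_apply, Finsupp.sum]
  refine Finset.sum_congr rfl fun h _ => ?_
  rw [Matrix.smul_apply]
  show φ.coeff h • (if q * π h = q' then (1 : ℤ) else 0) = _
  split_ifs <;> simp

/-- the matrix over the integers -/
def rhoM {Q : Type} [Group Q] [Fintype Q] [DecidableEq Q] (π : G →* Q) {I J : Type}
    (M : Matrix I J (MonoidAlgebra ℤ G)) : Matrix (Q × I) (Q × J) ℤ :=
  fun x y => rho π (M x.2 y.2) x.1 y.1

section rhoM

variable {Q : Type} [Group Q] [Fintype Q] [DecidableEq Q] (π : G →* Q) {I J K : Type}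

theorem rhoM_mul [Fintype J] (M : Matrix I J (MonoidAlgebra ℤ G))
    (N : Matrix J K (MonoidAlgebra ℤ G)) : rhoM π (M * N) = rhoM π M * rhoM π N := by
  ext x y
  rw [Matrix.mul_apply, Fintype.sum_prod_type, Finset.sum_comm]
  show rho π ((M * N) x.2 y.2) x.1 y.1 = _
  rw [Matrix.mul_apply, map_sum, Matrix.sum_apply]
  refine Finset.sum_congr rfl fun j _ => ?_
  rw [map_mul, Matrix.mul_apply]
  rfl

theorem rhoM_one [DecidableEq J] : rhoM π (1 : Matrix J J (MonoidAlgebra ℤ G)) = 1 := by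
  ext x y
  show rho π ((1 : Matrix J J (MonoidAlgebra ℤ G)) x.2 y.2) x.1 y.1 = _
  by_cases h : x.2 = y.2
  · rw [h, Matrix.one_apply_eq, map_one]
    by_cases h' : x.1 = y.1
    · rw [h', Matrix.one_apply_eq, show x = y from Prod.ext h' h, Matrix.one_apply_eq]
    · rw [Matrix.one_apply_ne h', Matrix.one_apply_ne (fun e => h' (by rw [e]))]
  · rw [Matrix.one_apply_ne h, map_zero, Matrix.one_apply_ne (fun e => h (by rw [e]))]
    rfl

theorem rhoM_pow [Fintype J] [DecidableEq J] (M : Matrix J J (MonoidAlgebra ℤ G)) (n : ℕ) :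
    rhoM π (M ^ n) = rhoM π M ^ n := by
  induction n with
  | zero => rw [pow_zero, pow_zero, rhoM_one]
  | succ n ih => rw [pow_succ, pow_succ, rhoM_mul, ih]

theorem rhoM_sub (M N : Matrix I J (MonoidAlgebra ℤ G)) :
    rhoM π (M - N) = rhoM π M - rhoM π N := by
  ext x y
  show rho π (M x.2 y.2 - N x.2 y.2) x.1 y.1 = _
  rw [map_sub]; rfl

theorem rhoM_smul (c : ℤ) (M : Matrix I J (MonoidAlgebra ℤ G)) :
    rhoM π (c • M) = c • rhoM π M := by
  ext x y
  show rho π (c • M x.2 y.2) x.1 y.1 = _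
  rw [map_smul]; rfl

end rhoM

/-! ## the involution -/

/-- the inversion as a homomorphism to the opposite ring -/
def stG : G →* (MonoidAlgebra ℤ G)ᵐᵒᵖ where
  toFun g := MulOpposite.op (MonoidAlgebra.of ℤ G g⁻¹)
  map_one' := by rw [inv_one, map_one, MulOpposite.op_one]
  map_mul' g h := by
    rw [mul_inv_rev, map_mul, MulOpposite.op_mul]

def stO : MonoidAlgebra ℤ G →ₐ[ℤ] (MonoidAlgebra ℤ G)ᵐᵒᵖ :=
  MonoidAlgebra.lift ℤ (MonoidAlgebra ℤ G)ᵐᵒᵖ G stG

/-- the involution of the group ring -/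
def st (φ : MonoidAlgebra ℤ G) : MonoidAlgebra ℤ G := MulOpposite.unop (stO φ)

theorem st_single (g : G) (c : ℤ) : st (MonoidAlgebra.single g c) = MonoidAlgebra.single g⁻¹ c := by
  rw [st, stO, MonoidAlgebra.lift_single, MulOpposite.unop_smul]
  show c • MonoidAlgebra.of ℤ G g⁻¹ = _
  rw [MonoidAlgebra.of_apply, MonoidAlgebra.smul_single]; simp

theorem st_add (φ ψ : MonoidAlgebra ℤ G) : st (φ + ψ) = st φ + st ψ := by
  rw [st, map_add, MulOpposite.unop_add]; rfl

theorem st_mul (φ ψ : MonoidAlgebra ℤ G) : st (φ * ψ) = st ψ * st φ := by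
  rw [st, map_mul, MulOpposite.unop_mul]; rfl

theorem st_zero : st (0 : MonoidAlgebra ℤ G) = 0 := by
  rw [st, map_zero]; rfl

theorem st_one : st (1 : MonoidAlgebra ℤ G) = 1 := by
  rw [st, map_one]; rfl

theorem st_sub (φ ψ : MonoidAlgebra ℤ G) : st (φ - ψ) = st φ - st ψ := by
  rw [st, map_sub, MulOpposite.unop_sub]; rfl

theorem st_smul (c : ℤ) (φ : MonoidAlgebra ℤ G) : st (c • φ) = c • st φ := by
  rw [st, map_smul, MulOpposite.unop_smul]; rfl

theorem st_sum {ι : Type} (s : Finset ι) (f : ι → MonoidAlgebra ℤ G) :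
    st (∑ i ∈ s, f i) = ∑ i ∈ s, st (f i) := by
  classical
  induction s using Finset.induction_on with
  | empty => simp [st_zero]
  | insert a s ha ih => rw [Finset.sum_insert ha, Finset.sum_insert ha, st_add, ih]

theorem st_coeff (φ : MonoidAlgebra ℤ G) (g : G) : (st φ).coeff g = φ.coeff g⁻¹ := by
  induction φ using MonoidAlgebra.induction_linear with
  | zero => rw [st_zero]; rfl
  | add φ ψ h1 h2 => rw [st_add, MonoidAlgebra.coeff_add, MonoidAlgebra.coeff_add,
      Finsupp.add_apply, Finsupp.add_apply, h1, h2]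
  | single a c =>
    rw [st_single, MonoidAlgebra.coeff_single, MonoidAlgebra.coeff_single]
    classical
    rw [Finsupp.single_apply, Finsupp.single_apply]
    by_cases h : a = g⁻¹
    · rw [if_pos h, if_pos (by rw [h, inv_inv])]
    · rw [if_neg h, if_neg (fun e => h (by rw [← e, inv_inv]))]

theorem st_st (φ : MonoidAlgebra ℤ G) : st (st φ) = φ := by
  apply MonoidAlgebra.ext
  ext g
  rw [st_coeff, st_coeff, inv_inv]

/-- adjoint matrix -/
def adj {I J : Type} (M : Matrix I J (MonoidAlgebra ℤ G)) : Matrix J I (MonoidAlgebra ℤ G) :=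
  fun j i => st (M i j)

theorem adj_mul {I J K : Type} [Fintype J] (M : Matrix I J (MonoidAlgebra ℤ G))
    (N : Matrix J K (MonoidAlgebra ℤ G)) : adj (M * N) = adj N * adj M := by
  ext1 k i
  rw [Matrix.mul_apply]
  show st ((M * N) i k) = _
  rw [Matrix.mul_apply, st_sum]
  refine Finset.sum_congr rfl fun j _ => ?_
  rw [st_mul]; rfl

theorem adj_adj {I J : Type} (M : Matrix I J (MonoidAlgebra ℤ G)) : adj (adj M) = M := by
  ext1 k i
  exact st_st _

theorem adj_one {J : Type} [DecidableEq J] : adj (1 : Matrix J J (MonoidAlgebra ℤ G)) = 1 := by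
  ext1 i j
  show st ((1 : Matrix J J (MonoidAlgebra ℤ G)) j i) = _
  by_cases h : i = j
  · rw [h, Matrix.one_apply_eq, st_one]
  · rw [Matrix.one_apply_ne h, Matrix.one_apply_ne (fun e => h e.symm), st_zero]

theorem adj_pow {J : Type} [Fintype J] [DecidableEq J] (M : Matrix J J (MonoidAlgebra ℤ G))
    (h : adj M = M) (n : ℕ) : adj (M ^ n) = M ^ n := by
  induction n with
  | zero => rw [pow_zero, adj_one]
  | succ n ih => rw [pow_succ, adj_mul, ih, h, ← pow_succ']; rw [pow_succ]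

theorem adj_sub {I J : Type} (M N : Matrix I J (MonoidAlgebra ℤ G)) :
    adj (M - N) = adj M - adj N := by
  ext1 i j
  exact st_sub _ _

theorem adj_smul {I J : Type} (c : ℤ) (M : Matrix I J (MonoidAlgebra ℤ G)) :
    adj (c • M) = c • adj M := by
  ext1 i j
  exact st_smul _ _

theorem rhoM_adj {Q : Type} [Group Q] [Fintype Q] [DecidableEq Q] (π : G →* Q) {I J : Type}
    (M : Matrix I J (MonoidAlgebra ℤ G)) : rhoM π (adj M) = (rhoM π M).transpose := by
  ext x y
  show rho π (st (M y.2 x.2)) x.1 y.1 = rho π (M y.2 x.2) y.1 x.1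
  generalize M y.2 x.2 = φ
  induction φ using MonoidAlgebra.induction_linear with
  | zero => rw [st_zero, map_zero]; rfl
  | add φ ψ h1 h2 =>
    rw [st_add, map_add, map_add, Matrix.add_apply, Matrix.add_apply, h1, h2]
  | single a c =>
    rw [st_single, rho_apply, rho_apply]
    simp only [MonoidAlgebra.coeff_single]
    rw [Finsupp.sum_single_index (by simp), Finsupp.sum_single_index (by simp), map_inv]
    have : x.1 * (π a)⁻¹ = y.1 ↔ y.1 * π a = x.1 := by
      rw [mul_inv_eq_iff_eq_mul, eq_comm]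
    simp only [this]

/-! ## the finite quotients -/

theorem rho_trace {Q : Type} [Group Q] [Fintype Q] [DecidableEq Q] (π : G →* Q)
    (φ : MonoidAlgebra ℤ G) (h : ∀ g ∈ φ.coeff.support, g ≠ 1 → π g ≠ 1) (q : Q) :
    rho π φ q q = φ.coeff 1 := by
  classical
  rw [rho_apply, Finsupp.sum]
  have : ∀ g ∈ φ.coeff.support, (if q * π g = q then φ.coeff g else 0) =
      if g = 1 then φ.coeff g else 0 := by
    intro g hg
    by_cases h1 : g = 1
    · rw [h1, map_one, mul_one, if_pos rfl, if_pos rfl]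
    · rw [if_neg h1, if_neg]
      intro e
      exact h g hg h1 (by simpa using e)
  rw [Finset.sum_congr rfl this]
  by_cases h1 : (1 : G) ∈ φ.coeff.support
  · rw [Finset.sum_eq_single_of_mem 1 h1 (fun b _ hb => if_neg hb), if_pos rfl]
  · rw [Finset.sum_eq_zero, Finsupp.notMem_support_iff.1 h1]
    intro g hg
    rw [if_neg]
    rintro rfl
    exact h1 hg

theorem rho_sum {Q : Type} [Group Q] [Fintype Q] [DecidableEq Q] (π : G →* Q) (p : ℕ)
    (φ : MonoidAlgebra ℤ G) (y : Q → ZMod p) (q : Q) :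
    ∑ q', ((rho π φ q q' : ℤ) : ZMod p) * y q' =
      φ.coeff.sum (fun h c => (c : ZMod p) * y (q * π h)) := by
  simp only [rho_apply, Finsupp.sum, Int.cast_sum, Finset.sum_mul]
  rw [Finset.sum_comm]
  refine Finset.sum_congr rfl fun h _ => ?_
  rw [Finset.sum_eq_single (q * π h)]
  · simp
  · intro b _ hb
    rw [if_neg (Ne.symm hb)]; simp
  · intro hb
    exact absurd (Finset.mem_univ _) hb

theorem kerQ_eq {Q : Type} [Group Q] [Fintype Q] [DecidableEq Q] (π : G →* Q) (p : ℕ)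
    {J K : Type} [Fintype J] [Fintype K] (a : Matrix K J (MonoidAlgebra ℤ G)) :
    LinearMap.ker ((rhoM π a).map (Int.cast : ℤ → ZMod p)).mulVecLin =
      kerQ p (fun k j => a k j) π := by
  ext y
  rw [LinearMap.mem_ker]
  show _ ↔ ∀ q k, ∑ j, (a k j).coeff.sum (fun h c => (c : ZMod p) * y (q * π h, j)) = 0
  have key : ∀ q k, ((rhoM π a).map (Int.cast : ℤ → ZMod p)).mulVecLin y (q, k) =
      ∑ j, (a k j).coeff.sum (fun h c => (c : ZMod p) * y (q * π h, j)) := by
    intro q k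
    rw [Matrix.mulVecLin_apply, Matrix.mulVec, dotProduct, Fintype.sum_prod_type,
      Finset.sum_comm]
    refine Finset.sum_congr rfl fun j _ => ?_
    exact rho_sum π p (a k j) (fun q' => y (q', j)) q
  constructor
  · intro h q k
    rw [← key, h]; rfl
  · intro h
    ext ⟨q, k⟩
    rw [key, h]; rfl

/-- the sum of the absolute values of the coefficients -/
def nm (φ : MonoidAlgebra ℤ G) : ℤ := ∑ h ∈ φ.coeff.support, |φ.coeff h|

theorem nm_nonneg (φ : MonoidAlgebra ℤ G) : 0 ≤ nm φ := Finset.sum_nonneg fun _ _ => abs_nonneg _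

theorem rho_row {Q : Type} [Group Q] [Fintype Q] [DecidableEq Q] (π : G →* Q)
    (φ : MonoidAlgebra ℤ G) (q : Q) : ∑ q', |rho π φ q q'| ≤ nm φ := by
  have h1 : ∀ q', |rho π φ q q'| ≤
      ∑ h ∈ φ.coeff.support, if q * π h = q' then |φ.coeff h| else 0 := by
    intro q'
    rw [rho_apply, Finsupp.sum]
    refine (Finset.abs_sum_le_sum_abs _ _).trans (Finset.sum_le_sum fun h _ => ?_)
    split_ifs <;> simp
  refine (Finset.sum_le_sum fun q' _ => h1 q').trans ?_
  rw [Finset.sum_comm, nm]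
  refine Finset.sum_le_sum fun h _ => ?_
  rw [Finset.sum_ite_eq]; simp

/-- the basic inequality -/
theorem fin_bound (hR : RnkStmt) (hT : TrcStmt) (p : ℕ) [Fact p.Prime] {J K : Type} [Fintype J]
    [Fintype K] [DecidableEq J] (aM : Matrix K J (MonoidAlgebra ℤ G))
    (A T : Matrix J J (MonoidAlgebra ℤ G)) (hA : A = adj aM * aM) (c : ℕ) (hc2 : 2 ≤ c)
    (hc : ∀ i, ∑ j, nm (A i j) ≤ (c : ℤ)) (n m : ℕ) (hm : 1 ≤ m)
    (hTdef : T = ((c : ℤ) • (1 : Matrix J J (MonoidAlgebra ℤ G)) - A) ^ (2 * n))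
    (Q : Type) [Group Q] [Fintype Q] (π : G →* Q)
    (hπ : ∀ j, ∀ g ∈ (T j j).coeff.support, g ≠ 1 → π g ≠ 1) (ε : ℝ)
    (hε : (Module.finrank (ZMod p) (kerQ p (fun k j => aM k j) π) : ℝ) ≤ ε * Fintype.card Q) :
    ((c : ℝ)⁻¹) ^ (2 * n) * ∑ j, ((T j j).coeff 1 : ℝ) ≤
      ε + (Fintype.card J : ℝ) / m + (Fintype.card J : ℝ) * (1 - ((c : ℝ)⁻¹) ^ (m + 1)) ^ (2 * n) := by
  classical
  set B := rhoM π aM with hB
  have hAB : rhoM π A = B.transpose * B := by rw [hA, rhoM_mul, rhoM_adj]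
  have hTB : rhoM π T = ((c : ℤ) • (1 : Matrix (Q × J) (Q × J) ℤ) - B.transpose * B) ^ (2 * n) := by
    rw [hTdef, rhoM_pow, rhoM_sub, rhoM_smul, rhoM_one, hAB]
  have hrow : ∀ i, ∑ j, |(B.transpose * B) i j| ≤ (c : ℤ) := by
    rintro ⟨q, i⟩
    rw [← hAB, Fintype.sum_prod_type, Finset.sum_comm]
    refine le_trans (Finset.sum_le_sum fun j _ => ?_) (hc i)
    exact rho_row π (A i j) q
  have h1 := hT (Q × J) (Q × K) B c m n hc2 hm hrow
  have h2 := hR p (Q × J) (Q × K) B
  rw [hB, kerQ_eq π p aM] at h2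
  have hc0 : (c : ℝ) ≠ 0 := by
    have : (2 : ℝ) ≤ c := by exact_mod_cast hc2
    linarith
  -- the trace
  have h3 : (1 - (c : ℝ)⁻¹ • (B.transpose * B).map (Int.cast : ℤ → ℝ)) ^ (2 * n) =
      ((c : ℝ)⁻¹) ^ (2 * n) • (rhoM π T).map (Int.cast : ℤ → ℝ) := by
    have e1 : (1 - (c : ℝ)⁻¹ • (B.transpose * B).map (Int.cast : ℤ → ℝ)) =
        (c : ℝ)⁻¹ • ((Int.castRingHom ℝ).mapMatrix
          ((c : ℤ) • (1 : Matrix (Q × J) (Q × J) ℤ) - B.transpose * B)) := by
      rw [map_sub, smul_sub]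
      congr 1
      ext x y
      simp only [RingHom.mapMatrix_apply, Matrix.smul_apply, Matrix.map_apply, Matrix.one_apply,
        smul_eq_mul]
      by_cases hxy : x = y
      · simp [hxy, hc0]
      · simp [hxy]
    rw [e1, smul_pow, ← map_pow, hTB]
    rfl
  have h4 : Matrix.trace ((rhoM π T).map (Int.cast : ℤ → ℝ)) =
      (Fintype.card Q : ℝ) * ∑ j, ((T j j).coeff 1 : ℝ) := by
    rw [Matrix.trace, Fintype.sum_prod_type]
    simp only [Matrix.diag_apply, Matrix.map_apply]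
    have : ∀ (q : Q) (j : J), rhoM π T (q, j) (q, j) = (T j j).coeff 1 :=
      fun q j => rho_trace π (T j j) (hπ j) q
    simp only [this]
    rw [Finset.sum_const, Finset.card_univ, nsmul_eq_mul]
  rw [h3, Matrix.trace_smul, h4, smul_eq_mul] at h1
  have hQ : (0 : ℝ) < Fintype.card Q := by exact_mod_cast Fintype.card_pos
  have h5 : (Module.finrank ℝ (LinearMap.ker (B.map (Int.cast : ℤ → ℝ)).mulVecLin) : ℝ) ≤
      ε * Fintype.card Q := le_trans (by exact_mod_cast h2) hε
  rw [Fintype.card_prod, Nat.cast_mul] at h1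
  have h6 : (Fintype.card Q : ℝ) * (((c : ℝ)⁻¹) ^ (2 * n) * ∑ j, ((T j j).coeff 1 : ℝ)) ≤
      (Fintype.card Q : ℝ) * (ε + (Fintype.card J : ℝ) / m +
        (Fintype.card J : ℝ) * (1 - ((c : ℝ)⁻¹) ^ (m + 1)) ^ (2 * n)) := by
    calc _ = ((c : ℝ)⁻¹) ^ (2 * n) * ((Fintype.card Q : ℝ) * ∑ j, ((T j j).coeff 1 : ℝ)) := by ring
      _ ≤ _ := h1
      _ ≤ ε * Fintype.card Q + (Fintype.card Q : ℝ) * (Fintype.card J : ℝ) / m +
          (Fintype.card Q : ℝ) * (Fintype.card J : ℝ) * (1 - ((c : ℝ)⁻¹) ^ (m + 1)) ^ (2 * n) := by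
        linarith
      _ = _ := by ring
  exact le_of_mul_le_mul_left h6 hQ

/-! ## the Hilbert space -/

theorem coeff_one_sq (φ : MonoidAlgebra ℤ G) :
    (φ * st φ).coeff 1 = ∑ h ∈ φ.coeff.support, (φ.coeff h) ^ 2 := by
  rw [MonoidAlgebra.coeff_mul_apply_left, Finsupp.sum]
  refine Finset.sum_congr rfl fun h _ => ?_
  rw [st_coeff, mul_one, inv_inv, sq]

/-- the action of matrices on tuples of functions -/
def mact {I J : Type} [Fintype J] (M : Matrix I J (MonoidAlgebra ℤ G)) (y : J → G → ℂ) :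
    I → G → ℂ := fun i => ∑ j, act (MonoidHom.id G) ℂ (M i j) (y j)

theorem mact_mul {I J K : Type} [Fintype J] [Fintype K] (M : Matrix I J (MonoidAlgebra ℤ G))
    (N : Matrix J K (MonoidAlgebra ℤ G)) (y : K → G → ℂ) :
    mact (M * N) y = mact M (mact N y) := by
  funext i
  show ∑ k, act (MonoidHom.id G) ℂ ((M * N) i k) (y k) =
    ∑ j, act (MonoidHom.id G) ℂ (M i j) (∑ k, act (MonoidHom.id G) ℂ (N j k) (y k))
  simp only [map_sum]
  rw [Finset.sum_comm]
  refine Finset.sum_congr rfl fun k _ => ?_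
  rw [Matrix.mul_apply, map_sum, LinearMap.sum_apply]
  refine Finset.sum_congr rfl fun j _ => ?_
  rw [map_mul]; rfl

theorem mact_sub {I J : Type} [Fintype J] (M N : Matrix I J (MonoidAlgebra ℤ G))
    (y : J → G → ℂ) : mact (M - N) y = mact M y - mact N y := by
  funext i
  show ∑ j, act (MonoidHom.id G) ℂ (M i j - N i j) (y j) = _
  simp only [map_sub, LinearMap.sub_apply, Finset.sum_sub_distrib]
  rfl

theorem mact_smul_one {J : Type} [Fintype J] [DecidableEq J] (c : ℤ) (y : J → G → ℂ) :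
    mact (c • (1 : Matrix J J (MonoidAlgebra ℤ G))) y = c • y := by
  funext i
  show ∑ j, act (MonoidHom.id G) ℂ (c • (1 : Matrix J J (MonoidAlgebra ℤ G)) i j) (y j) = _
  simp only [map_smul, LinearMap.smul_apply]
  rw [Finset.sum_eq_single i]
  · rw [Matrix.one_apply_eq, map_one]; rfl
  · intro j _ hj
    rw [Matrix.one_apply_ne hj.symm, map_zero]; simp
  · intro h; exact absurd (Finset.mem_univ _) h

theorem mact_zero {I J : Type} [Fintype J] (M : Matrix I J (MonoidAlgebra ℤ G)) :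
    mact M (0 : J → G → ℂ) = 0 := by
  funext i
  show ∑ j, act (MonoidHom.id G) ℂ (M i j) 0 = 0
  simp

theorem mact_smul {I J : Type} [Fintype J] (M : Matrix I J (MonoidAlgebra ℤ G)) (c : ℤ)
    (y : J → G → ℂ) : mact M (c • y) = c • mact M y := by
  funext i
  show ∑ j, act (MonoidHom.id G) ℂ (M i j) (c • y j) =
    c • ∑ j, act (MonoidHom.id G) ℂ (M i j) (y j)
  simp only [map_smul, Finset.smul_sum]

theorem mact_one {J : Type} [Fintype J] [DecidableEq J] (y : J → G → ℂ) :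
    mact (1 : Matrix J J (MonoidAlgebra ℤ G)) y = y := by
  have := mact_smul_one (J := J) 1 y
  simpa using this

theorem mact_pow {J : Type} [Fintype J] [DecidableEq J] (M : Matrix J J (MonoidAlgebra ℤ G))
    (y : J → G → ℂ) (c : ℤ) (h : mact M y = c • y) (n : ℕ) : mact (M ^ n) y = c ^ n • y := by
  induction n with
  | zero => rw [pow_zero, mact_one, pow_zero, one_smul]
  | succ n ih => rw [pow_succ, mact_mul, h, mact_smul, ih, smul_smul, pow_succ, mul_comm]

/-- Cauchy-Schwarz -/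
theorem mact_bound {J : Type} [Fintype J] [DecidableEq J] (P : Matrix J J (MonoidAlgebra ℤ G))
    (hP : adj P = P) (x : Hil (G × J)) (j : J) :
    ‖mact P (fun i g => x (g, i)) j 1‖ ^ 2 ≤ (((P * P) j j).coeff 1 : ℝ) * ‖x‖ ^ 2 := by
  classical
  set F : Finset G := Finset.univ.biUnion fun i => (P j i).coeff.support with hF
  have hsub : ∀ i, (P j i).coeff.support ⊆ F := fun i => by
    rw [hF]; exact Finset.subset_biUnion_of_mem (fun i => (P j i).coeff.support) (Finset.mem_univ i)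
  have h1 : mact P (fun i g => x (g, i)) j 1 =
      ∑ z ∈ F ×ˢ (Finset.univ : Finset J), ((P j z.2).coeff z.1 : ℂ) * x (z.1, z.2) := by
    show (∑ i, act (MonoidHom.id G) ℂ (P j i) (fun g => x (g, i))) 1 = _
    rw [Finset.sum_apply, Finset.sum_product_right]
    refine Finset.sum_congr rfl fun i _ => ?_
    rw [act_apply, Finsupp.sum]
    have : ∑ h ∈ (P j i).coeff.support, (P j i).coeff h • x (1 * (MonoidHom.id G) h, i) =
        ∑ h ∈ (P j i).coeff.support, ((P j i).coeff h : ℂ) * x (h, i) := by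
      refine Finset.sum_congr rfl fun h _ => ?_
      rw [zsmul_eq_mul, one_mul]; rfl
    rw [this]
    refine Finset.sum_subset (hsub i) fun h _ hh => ?_
    rw [Finsupp.notMem_support_iff.1 hh]; simp
  have h2 : ((P * P) j j).coeff 1 =
      ∑ z ∈ F ×ˢ (Finset.univ : Finset J), ((P j z.2).coeff z.1) ^ 2 := by
    rw [Matrix.mul_apply, MonoidAlgebra.coeff_sum, Finset.sum_apply', Finset.sum_product_right]
    refine Finset.sum_congr rfl fun i _ => ?_
    have e1 : P i j = st (P j i) := by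
      have := congrFun (congrFun hP i) j
      exact this.symm
    rw [e1, coeff_one_sq]
    refine Finset.sum_subset (hsub i) fun h _ hh => ?_
    rw [Finsupp.notMem_support_iff.1 hh]; simp
  have h3 : ‖mact P (fun i g => x (g, i)) j 1‖ ≤
      ∑ z ∈ F ×ˢ (Finset.univ : Finset J), |((P j z.2).coeff z.1 : ℝ)| * ‖x z‖ := by
    rw [h1]
    refine (norm_sum_le _ _).trans (Finset.sum_le_sum fun z _ => ?_)
    rw [norm_mul, Complex.norm_intCast]
  have h4 := Finset.sum_mul_sq_le_sq_mul_sq (F ×ˢ (Finset.univ : Finset J))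
    (fun z => |((P j z.2).coeff z.1 : ℝ)|) (fun z => ‖x z‖)
  have h5 : ∑ z ∈ F ×ˢ (Finset.univ : Finset J), ‖x z‖ ^ 2 ≤ ‖x‖ ^ 2 := by
    rw [Hil.norm_sq]
    exact (Hil.summable_sq x).sum_le_tsum _ (fun _ _ => by positivity)
  have h6 : ∑ z ∈ F ×ˢ (Finset.univ : Finset J), |((P j z.2).coeff z.1 : ℝ)| ^ 2 =
      (((P * P) j j).coeff 1 : ℝ) := by
    rw [h2, Int.cast_sum]
    refine Finset.sum_congr rfl fun z _ => ?_
    rw [sq_abs, Int.cast_pow]
  rw [h6] at h4
  calc ‖mact P (fun i g => x (g, i)) j 1‖ ^ 2 ≤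
      (∑ z ∈ F ×ˢ (Finset.univ : Finset J), |((P j z.2).coeff z.1 : ℝ)| * ‖x z‖) ^ 2 :=
        pow_le_pow_left₀ (norm_nonneg _) h3 2
    _ ≤ _ := h4
    _ ≤ _ := by
      refine mul_le_mul_of_nonneg_left h5 ?_
      rw [← h6]
      positivity

theorem coeff_sq_nonneg {J : Type} [Fintype J] [DecidableEq J]
    (P : Matrix J J (MonoidAlgebra ℤ G)) (hP : adj P = P) (j : J) :
    0 ≤ ((P * P) j j).coeff 1 := by
  rw [Matrix.mul_apply, MonoidAlgebra.coeff_sum, Finset.sum_apply']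
  refine Finset.sum_nonneg fun i _ => ?_
  have e1 : P i j = st (P j i) := (congrFun (congrFun hP i) j).symm
  rw [e1, coeff_one_sq]
  positivity

theorem lck_one (hR : RnkStmt) (hT : TrcStmt) (p : ℕ) [Fact p.Prime] {J K : Type} [Fintype J]
    [Fintype K] (a : K → J → MonoidAlgebra ℤ G)
    (hQ : ∀ F : Finset G, 1 ∉ F → ∀ ε : ℝ, 0 < ε → ∃ (Q : Type) (_ : Group Q) (_ : Fintype Q)
      (π : G →* Q), (∀ g ∈ F, π g ≠ 1) ∧
        (Module.finrank (ZMod p) (kerQ p a π) : ℝ) ≤ ε * Fintype.card Q)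
    (x : Hil (G × J))
    (hx : ∀ g k, ∑ j, (a k j).coeff.sum (fun h c => (c : ℂ) * x (g * h, j)) = 0) (j : J) :
    x (1, j) = 0 := by
  classical
  set aM : Matrix K J (MonoidAlgebra ℤ G) := a with haM
  set A := adj aM * aM with hA
  -- the constant
  obtain ⟨c, hc⟩ : ∃ c : ℕ, (c : ℤ) = 2 + ∑ i, ∑ j, nm (A i j) := by
    refine ⟨(2 + ∑ i, ∑ j, nm (A i j)).toNat, Int.toNat_of_nonneg ?_⟩
    have : 0 ≤ ∑ i, ∑ j, nm (A i j) :=
      Finset.sum_nonneg fun i _ => Finset.sum_nonneg fun j _ => nm_nonneg _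
    linarith
  have hcA : ∀ i, ∑ j, nm (A i j) ≤ (c : ℤ) := by
    intro i
    have := Finset.single_le_sum (f := fun i => ∑ j, nm (A i j))
      (fun i _ => Finset.sum_nonneg fun j _ => nm_nonneg _) (Finset.mem_univ i)
    rw [hc]
    linarith
  have hc2 : 2 ≤ c := by
    have : 0 ≤ ∑ i, ∑ j, nm (A i j) :=
      Finset.sum_nonneg fun i _ => Finset.sum_nonneg fun j _ => nm_nonneg _
    have h2 : (2 : ℤ) ≤ c := by linarith
    exact_mod_cast h2
  have hc2' : (2 : ℝ) ≤ c := by exact_mod_cast hc2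
  set D := (c : ℤ) • (1 : Matrix J J (MonoidAlgebra ℤ G)) - A with hD
  have hDadj : adj D = D := by
    rw [hD, adj_sub, adj_smul, adj_one, hA, adj_mul, adj_adj]
  set y : J → G → ℂ := fun i g => x (g, i) with hy
  have hker : mact aM y = 0 := by
    funext k g
    show (∑ i, act (MonoidHom.id G) ℂ (a k i) (y i)) g = 0
    rw [Finset.sum_apply, ← hx g k]
    refine Finset.sum_congr rfl fun i _ => ?_
    rw [act_apply]
    refine Finsupp.sum_congr fun h _ => ?_
    rw [zsmul_eq_mul]; rfl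
  have hDy : mact D y = (c : ℤ) • y := by
    rw [hD, mact_sub, mact_smul_one, hA, mact_mul, hker, mact_zero, sub_zero]
  -- the main bound
  have main : ∀ (ε : ℝ), 0 < ε → ∀ m n : ℕ, 1 ≤ m → ‖x (1, j)‖ ^ 2 ≤
      (ε + (Fintype.card J : ℝ) / m +
        (Fintype.card J : ℝ) * (1 - ((c : ℝ)⁻¹) ^ (m + 1)) ^ (2 * n)) * ‖x‖ ^ 2 := by
    intro ε hε m n hm
    set F : Finset G := (Finset.univ.biUnion fun i => ((D ^ (2 * n)) i i).coeff.support).erase 1
      with hF
    obtain ⟨Q, _, _, π, hπ, hdim⟩ := hQ F (Finset.notMem_erase 1 _) ε hε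
    have hb := fin_bound hR hT p aM A (D ^ (2 * n)) hA c hc2 hcA n m hm (by rw [hD]) Q π (by
      intro i g hg hg1
      refine hπ g ?_
      rw [hF, Finset.mem_erase]
      exact ⟨hg1, Finset.mem_biUnion.2 ⟨i, Finset.mem_univ _, hg⟩⟩) ε hdim
    have hPadj : adj (D ^ n) = D ^ n := adj_pow D hDadj n
    have h1 := mact_bound (D ^ n) hPadj x j
    have h2 : mact (D ^ n) (fun i g => x (g, i)) j 1 = (c : ℂ) ^ n * x (1, j) := by
      have := mact_pow D y c hDy n
      have h3 := congrFun (congrFun this j) 1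
      rw [show (fun i g => x (g, i)) = y from rfl, h3]
      show ((c : ℤ) ^ n) • x (1, j) = _
      rw [zsmul_eq_mul]; push_cast; ring
    rw [h2, norm_mul, norm_pow, Complex.norm_natCast, mul_pow, ← pow_mul, mul_comm n 2,
      ← pow_add, ← two_mul] at h1
    have h3 : (((D ^ (2 * n)) j j).coeff 1 : ℝ) ≤ ∑ i, (((D ^ (2 * n)) i i).coeff 1 : ℝ) := by
      refine Finset.single_le_sum (f := fun i => (((D ^ (2 * n)) i i).coeff 1 : ℝ)) ?_
        (Finset.mem_univ j)
      intro i _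
      have := coeff_sq_nonneg (D ^ n) hPadj i
      rw [← pow_add, ← two_mul] at this
      exact_mod_cast this
    have hcn : (0 : ℝ) < (c : ℝ) ^ (2 * n) := by positivity
    have h4 : ‖x (1, j)‖ ^ 2 ≤ ((c : ℝ)⁻¹) ^ (2 * n) *
        (((D ^ (2 * n)) j j).coeff 1 : ℝ) * ‖x‖ ^ 2 := by
      rw [inv_pow]
      rw [mul_assoc, ← div_eq_inv_mul, le_div_iff₀ hcn]
      linarith
    refine h4.trans (mul_le_mul_of_nonneg_right ?_ (by positivity))
    refine le_trans ?_ hb
    exact mul_le_mul_of_nonneg_left h3 (by positivity)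
  -- the limit
  have hJ : (0 : ℝ) < Fintype.card J := by
    have : Nonempty J := ⟨j⟩
    exact_mod_cast Fintype.card_pos
  have lim : ∀ δ : ℝ, 0 < δ → ‖x (1, j)‖ ^ 2 ≤ δ * ‖x‖ ^ 2 := by
    intro δ hδ
    obtain ⟨m, hm⟩ := exists_nat_gt (3 * (Fintype.card J : ℝ) / δ)
    have hm0 : (0 : ℝ) < m := lt_trans (by positivity) hm
    have hm1 : 1 ≤ m := by
      have : 0 < m := by exact_mod_cast hm0
      omega
    have hr0 : 0 ≤ 1 - ((c : ℝ)⁻¹) ^ (m + 1) := by
      have : ((c : ℝ)⁻¹) ^ (m + 1) ≤ 1 := by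
        apply pow_le_one₀ (by positivity)
        rw [inv_le_one₀ (by linarith)]; linarith
      linarith
    have hr1 : 1 - ((c : ℝ)⁻¹) ^ (m + 1) < 1 := by
      have : 0 < ((c : ℝ)⁻¹) ^ (m + 1) := by positivity
      linarith
    obtain ⟨n, hn⟩ := exists_pow_lt_of_lt_one (show 0 < δ / (3 * Fintype.card J) by positivity) hr1
    have h1 := main (δ / 3) (by positivity) m n hm1
    refine h1.trans (mul_le_mul_of_nonneg_right ?_ (by positivity))
    have h2 : (Fintype.card J : ℝ) / m ≤ δ / 3 := by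
      rw [div_le_div_iff₀ hm0 (by norm_num)]
      rw [div_lt_iff₀ hδ] at hm
      linarith
    have h3 : (1 - ((c : ℝ)⁻¹) ^ (m + 1)) ^ (2 * n) ≤ (1 - ((c : ℝ)⁻¹) ^ (m + 1)) ^ n :=
      pow_le_pow_of_le_one hr0 hr1.le (by omega)
    have h4 : (Fintype.card J : ℝ) * (1 - ((c : ℝ)⁻¹) ^ (m + 1)) ^ (2 * n) ≤ δ / 3 := by
      calc _ ≤ (Fintype.card J : ℝ) * (δ / (3 * Fintype.card J)) :=
            mul_le_mul_of_nonneg_left (h3.trans hn.le) hJ.le
        _ = δ / 3 := by field_simp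
    linarith
  have hz : ‖x (1, j)‖ ^ 2 ≤ 0 := by
    refine le_of_forall_pos_le_add fun δ hδ => ?_
    rw [zero_add]
    by_cases hx0 : ‖x‖ ^ 2 = 0
    · have := lim 1 one_pos
      rw [hx0] at this
      linarith
    · have hpos : 0 < ‖x‖ ^ 2 := lt_of_le_of_ne (by positivity) (Ne.symm hx0)
      have := lim (δ / ‖x‖ ^ 2) (by positivity)
      rwa [div_mul_cancel₀ _ hx0] at this
  have : ‖x (1, j)‖ = 0 := by
    have h := sq_nonneg ‖x (1, j)‖
    have h' : ‖x (1, j)‖ ^ 2 = 0 := le_antisymm hz h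
    exact pow_eq_zero_iff (two_ne_zero) |>.1 h'
  exact norm_eq_zero.1 this

theorem lck (hR : RnkStmt) (hT : TrcStmt) : LckStmt := by
  intro p _ G _ J K _ _ a hQ x hx
  apply Hil.ext'
  rintro ⟨g, j⟩
  have h := lck_one hR hT p a hQ (Lt g⁻¹ x) (by
    intro g' k
    have := hx (g * g') k
    rw [← this]
    refine Finset.sum_congr rfl fun i _ => Finsupp.sum_congr fun h _ => ?_
    rw [Lt_apply, inv_inv, mul_assoc]) j
  rw [Lt_apply, inv_inv, mul_one] at h
  exact h

end

end Pool.Agent.Sph.H56
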