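import Pool.Agent.Helper30_Sph.Stmts

/-! # Representations with few top cycles (module REP, squad SPH, MP_f80465_gt) -/

namespace Pool.Agent.Sph.H56R

open Pool.Agent.Sph Pool.Agent.Helper30L2

set_option linter.unusedSectionVars false

noncomputable section

/-! ## commuting operators and a cube of bits -/

section cube

variable {V D : Type} [AddCommGroup D] [Module (ZMod 2) D] {K : ℕ} (c : V → Fin K)
  (s : V → D →ₗ[ZMod 2] D)

theorem add_self2 {A : Type} [AddCommGroup A] [Module (ZMod 2) A] (x : A) : x + x = 0 := by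
  have : (2 : ZMod 2) • x = 0 := by
    rw [show (2 : ZMod 2) = 0 by decide, zero_smul]
  rwa [two_smul] at this

theorem eq_of_add2 {A : Type} [AddCommGroup A] [Module (ZMod 2) A] {x y : A} (h : x + y = 0) :
    x = y := by
  have h1 := add_self2 y
  have : x + y = y + y := by rw [h, h1]
  exact add_right_cancel this

/-- the functional -/
def lam (v : V) (m : (Fin K → Bool) → D) (b : Fin K → Bool) : D :=
  m (Function.update b (c v) true) + s v (m (Function.update b (c v) false))

/-- the vector -/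
def eb (v : V) (b : Fin K → Bool) (x : D) : D := if b (c v) = true then s v x else x

theorem eb_add (v : V) (b : Fin K → Bool) (x y : D) :
    eb c s v b (x + y) = eb c s v b x + eb c s v b y := by
  unfold eb; split_ifs <;> simp

theorem eb_zero (v : V) (b : Fin K → Bool) : eb c s v b 0 = 0 := by
  unfold eb; split_ifs <;> simp

/-- the involution of a vertex -/
def Tm (v : V) : ((Fin K → Bool) → D) →ₗ[ZMod 2] ((Fin K → Bool) → D) where
  toFun m b := m b + eb c s v b (lam c s v m b)
  map_add' m m' := by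
    funext b
    simp only [lam, Pi.add_apply, map_add, eb_add]
    abel
  map_smul' r m := by
    funext b
    simp only [lam, Pi.smul_apply, map_smul, eb, RingHom.id_apply, smul_add]
    split_ifs <;> simp [smul_add]

theorem Tm_apply (v : V) (m : (Fin K → Bool) → D) (b : Fin K → Bool) :
    Tm c s v m b = m b + eb c s v b (lam c s v m b) := rfl

theorem lam_upd (v : V) (m : (Fin K → Bool) → D) (b : Fin K → Bool) (x : Bool) :
    lam c s v m (Function.update b (c v) x) = lam c s v m b := by
  unfold lam; simp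

theorem eb_true (v : V) (b : Fin K → Bool) (x : D) :
    eb c s v (Function.update b (c v) true) x = s v x := by
  unfold eb; simp

theorem eb_false (v : V) (b : Fin K → Bool) (x : D) :
    eb c s v (Function.update b (c v) false) x = x := by
  unfold eb; simp

theorem Tm_sq (v : V) (m : (Fin K → Bool) → D) : Tm c s v (Tm c s v m) = m := by
  funext b
  have h1 : lam c s v (Tm c s v m) b = lam c s v m b := by
    show Tm c s v m (Function.update b (c v) true) +
      s v (Tm c s v m (Function.update b (c v) false)) = _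
    rw [Tm_apply, Tm_apply, lam_upd, lam_upd, eb_true, eb_false, map_add]
    have : m (Function.update b (c v) true) + s v (lam c s v m b) +
        (s v (m (Function.update b (c v) false)) + s v (lam c s v m b)) =
        lam c s v m b + (s v (lam c s v m b) + s v (lam c s v m b)) := by
      unfold lam; abel
    rw [this, add_self2, add_zero]
  rw [Tm_apply, h1, Tm_apply, add_assoc, add_self2, add_zero]

theorem Tm_comm {v w : V} (h : c v ≠ c w) (hs : ∀ x, s v (s w x) = s w (s v x))
    (m : (Fin K → Bool) → D) : Tm c s v (Tm c s w m) = Tm c s w (Tm c s v m) := by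
  funext b
  have h' : c w ≠ c v := fun e => h e.symm
  have hu : ∀ x y : Bool, Function.update (Function.update b (c v) x) (c w) y =
      Function.update (Function.update b (c w) y) (c v) x :=
    fun x y => Function.update_comm h _ _ _
  simp only [Tm_apply, lam, eb, Function.update_of_ne h, Function.update_of_ne h', hu]
  by_cases h1 : b (c v) = true <;> by_cases h2 : b (c w) = true <;>
    simp only [h1, h2, if_true, Bool.false_eq_true, if_false, map_add, hs] <;> abel

theorem Tm_fix {v : V} {m : (Fin K → Bool) → D} (h : Tm c s v m = m) (b : Fin K → Bool) :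
    m (Function.update b (c v) true) = s v (m (Function.update b (c v) false)) := by
  have h1 := congrFun h (Function.update b (c v) false)
  rw [Tm_apply, eb_false, lam_upd] at h1
  have h2 : lam c s v m b = 0 := by simpa using h1
  exact eq_of_add2 h2

/-- the involution as an automorphism -/
def Te (v : V) : ((Fin K → Bool) → D) ≃ₗ[ZMod 2] ((Fin K → Bool) → D) :=
  LinearEquiv.ofInvolutive (Tm c s v) (Tm_sq c s v)

theorem Te_apply (v : V) (m : (Fin K → Bool) → D) : Te c s v m = Tm c s v m := rfl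

theorem exists_rep (Γ : SimpleGraph V) (hc : ∀ v w, Γ.Adj v w → c v ≠ c w)
    (hs : ∀ v w x, s v (s w x) = s w (s v x)) :
    ∃ ρ : Pool.Agent.Davis.Racg Γ →* (((Fin K → Bool) → D) ≃ₗ[ZMod 2] ((Fin K → Bool) → D)),
      ∀ v, ρ (Pool.Agent.Davis.gen Γ v) = Te c s v := by
  obtain ⟨θ, hθ⟩ := exists_hom (Γ := Γ) (cm Γ).toCoxeterSystem
    (K := ((Fin K → Bool) → D) ≃ₗ[ZMod 2] ((Fin K → Bool) → D)) (Te c s)
    (fun v => by
      ext1 m
      exact Tm_sq c s v m)
    (fun v w h => by
      ext1 m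
      exact Tm_comm c s (hc v w h) (hs v w) m)
  refine ⟨θ, fun v => ?_⟩
  rw [← hθ v]
  rfl

end cube

/-! ## truncated polynomials -/

section trunc

variable {V : Type} [DecidableEq V] [Fintype V]

/-- total degree -/
def dg (e : V →₀ ℕ) : ℕ := ∑ v, e v

variable (V) in
/-- exponents of degree less than `N` -/
def SN (N : ℕ) : Finset (V →₀ ℕ) :=
  ((Fintype.piFinset fun _ : V => Finset.range N).map
    Finsupp.equivFunOnFinite.symm.toEmbedding).filter fun e => dg e < N

theorem mem_SN {N : ℕ} {e : V →₀ ℕ} : e ∈ SN V N ↔ dg e < N := by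
  unfold SN
  rw [Finset.mem_filter, Finset.mem_map]
  refine ⟨fun h => h.2, fun h => ⟨⟨fun v => e v, ?_, ?_⟩, h⟩⟩
  · rw [Fintype.mem_piFinset]
    intro v
    rw [Finset.mem_range]
    refine lt_of_le_of_lt ?_ h
    exact Finset.single_le_sum (f := fun v => e v) (fun _ _ => Nat.zero_le _) (Finset.mem_univ v)
  · ext v; rfl

theorem card_SN_le (N : ℕ) : (SN V N).card ≤ N ^ Fintype.card V := by
  unfold SN
  refine (Finset.card_filter_le _ _).trans ?_
  rw [Finset.card_map, Fintype.card_piFinset]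
  simp

/-- lowering an exponent -/
def dl (e : V →₀ ℕ) (v : V) : V →₀ ℕ := e - Finsupp.single v 1

theorem dl_same (e : V →₀ ℕ) (v : V) : dl e v v = e v - 1 := by
  unfold dl; rw [Finsupp.tsub_apply, Finsupp.single_eq_same]

theorem dl_ne (e : V →₀ ℕ) {v w : V} (h : w ≠ v) : dl e v w = e w := by
  unfold dl; rw [Finsupp.tsub_apply, Finsupp.single_apply, if_neg (Ne.symm h), Nat.sub_zero]

theorem dl_comm (e : V →₀ ℕ) (v w : V) : dl (dl e v) w = dl (dl e w) v := by
  unfold dl; rw [tsub_right_comm]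

theorem dg_sub {e : V →₀ ℕ} {v : V} (h : 0 < e v) : dg (dl e v) + 1 = dg e := by
  unfold dg
  rw [← Finset.add_sum_erase _ (fun x => dl e v x) (Finset.mem_univ v),
    ← Finset.add_sum_erase _ (fun v => e v) (Finset.mem_univ v)]
  have h1 : ∑ x ∈ Finset.univ.erase v, dl e v x = ∑ x ∈ Finset.univ.erase v, e x := by
    refine Finset.sum_congr rfl fun x hx => ?_
    rw [Finset.mem_erase] at hx
    exact dl_ne e hx.1
  rw [h1, dl_same]
  omega

/-- truncated polynomials -/
abbrev Dn (V : Type) [DecidableEq V] [Fintype V] (N : ℕ) : Type := ↥(SN V N) → ZMod 2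

/-- extension by zero -/
def ex {N : ℕ} (y : Dn V N) (e : V →₀ ℕ) : ZMod 2 := if h : e ∈ SN V N then y ⟨e, h⟩ else 0

theorem ex_add {N : ℕ} (y z : Dn V N) (e : V →₀ ℕ) : ex (y + z) e = ex y e + ex z e := by
  unfold ex; split_ifs <;> simp

theorem ex_smul {N : ℕ} (r : ZMod 2) (y : Dn V N) (e : V →₀ ℕ) : ex (r • y) e = r * ex y e := by
  unfold ex; split_ifs <;> simp

theorem ex_mem {N : ℕ} (y : Dn V N) (e : ↥(SN V N)) : ex y e.1 = y e := by
  unfold ex; rw [dif_pos e.2]

theorem ex_zero {N : ℕ} (e : V →₀ ℕ) : ex (0 : Dn V N) e = 0 := by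
  unfold ex; split_ifs <;> simp

theorem ex_sum {N : ℕ} {ι : Type} (S : Finset ι) (y : ι → Dn V N) (e : V →₀ ℕ) :
    ex (∑ i ∈ S, y i) e = ∑ i ∈ S, ex (y i) e := by
  classical
  induction S using Finset.induction_on with
  | empty => simp [ex_zero]
  | insert a S ha ih => rw [Finset.sum_insert ha, Finset.sum_insert ha, ex_add, ih]

/-- multiplication by a variable -/
def sh (N : ℕ) (v : V) : Dn V N →ₗ[ZMod 2] Dn V N where
  toFun y e := if 0 < e.1 v then ex y (dl e.1 v) else 0
  map_add' y z := by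
    funext e
    simp only [Pi.add_apply, ex_add]
    split_ifs <;> simp
  map_smul' r y := by
    funext e
    simp only [Pi.smul_apply, ex_smul, RingHom.id_apply, smul_eq_mul]
    split_ifs <;> simp

theorem sh_apply (N : ℕ) (v : V) (y : Dn V N) (e : ↥(SN V N)) :
    sh N v y e = if 0 < e.1 v then ex y (dl e.1 v) else 0 := rfl

theorem ex_sh {N : ℕ} (v : V) (y : Dn V N) {e : V →₀ ℕ} (he : dg e < N) :
    ex (sh N v y) e = if 0 < e v then ex y (dl e v) else 0 := by
  have h : e ∈ SN V N := mem_SN.2 he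
  exact (ex_mem (sh N v y) ⟨e, h⟩).trans rfl

theorem sh_comm (N : ℕ) (v w : V) (y : Dn V N) : sh N v (sh N w y) = sh N w (sh N v y) := by
  by_cases hvw : v = w
  · rw [hvw]
  funext e
  have he := mem_SN.1 e.2
  rw [sh_apply, sh_apply]
  by_cases h1 : 0 < e.1 v <;> by_cases h2 : 0 < e.1 w
  · have d1 := dg_sub h1
    have d2 := dg_sub h2
    rw [if_pos h1, if_pos h2, ex_sh w y (by omega), ex_sh v y (by omega)]
    have e1 : dl e.1 v w = e.1 w := dl_ne _ (Ne.symm hvw)
    have e2 : dl e.1 w v = e.1 v := dl_ne _ hvw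
    rw [e1, e2, if_pos h1, if_pos h2, dl_comm]
  · have d1 := dg_sub h1
    rw [if_pos h1, if_neg h2, ex_sh w y (by omega)]
    have e1 : dl e.1 v w = e.1 w := dl_ne _ (Ne.symm hvw)
    rw [e1, if_neg h2]
  · have d2 := dg_sub h2
    rw [if_neg h1, if_pos h2, ex_sh v y (by omega)]
    have e2 : dl e.1 w v = e.1 v := dl_ne _ hvw
    rw [e2, if_neg h1]
  · rw [if_neg h1, if_neg h2]

/-! ## the filtration -/

/-- vanishing in low degrees -/
def Low {K N : ℕ} (d : ℕ) (m : (Fin K → Bool) → Dn V N) : Prop :=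
  ∀ b (e : ↥(SN V N)), dg e.1 < d → m b e = 0

theorem sh_low {N : ℕ} {d : ℕ} {v : V} {y : Dn V N} (h : ∀ e : ↥(SN V N), dg e.1 < d → y e = 0)
    (e : ↥(SN V N)) (he : dg e.1 < d + 1) : sh N v y e = 0 := by
  rw [sh_apply]
  split_ifs with h1
  · have d1 := dg_sub h1
    have hm : dl e.1 v ∈ SN V N := mem_SN.2 (by have := mem_SN.1 e.2; omega)
    rw [ex, dif_pos hm]
    exact h _ (by show dg (dl e.1 v) < d; omega)
  · rfl

theorem Low.add {K N : ℕ} {d : ℕ} {m m' : (Fin K → Bool) → Dn V N} (h : Low d m)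
    (h' : Low d m') : Low d (m + m') := by
  intro b e he
  show m b e + m' b e = 0
  rw [h b e he, h' b e he, add_zero]

theorem Low.Tm {K N : ℕ} {c : V → Fin K} {d : ℕ} {m : (Fin K → Bool) → Dn V N} (h : Low d m)
    (v : V) : Low d (Tm c (sh N) v m) := by
  have h1 : ∀ b, ∀ e : ↥(SN V N), dg e.1 < d → lam c (sh N) v m b e = 0 := by
    intro b e he
    show m (Function.update b (c v) true) e + sh N v (m (Function.update b (c v) false)) e = 0
    rw [h _ e he, sh_low (h _) e (by omega), add_zero]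
  intro b e he
  show m b e + eb c (sh N) v b (lam c (sh N) v m b) e = 0
  rw [h b e he, zero_add]
  unfold eb
  split_ifs
  · exact sh_low (h1 b) e (by omega)
  · exact h1 b e he

theorem Low.Tm0 {K N : ℕ} {c : V → Fin K} {d : ℕ} {m : (Fin K → Bool) → Dn V N} (h : Low d m)
    (v : V) : Low d (H56R.Tm c (fun _ => (0 : Dn V N →ₗ[ZMod 2] Dn V N)) v m) := by
  intro b e he
  show m b e + eb c (fun _ => (0 : Dn V N →ₗ[ZMod 2] Dn V N)) v b
    (lam c (fun _ => (0 : Dn V N →ₗ[ZMod 2] Dn V N)) v m b) e = 0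
  rw [h b e he, zero_add]
  unfold eb lam
  split_ifs
  · rfl
  · show m (Function.update b (c v) true) e + 0 = 0
    rw [h _ e he, add_zero]

theorem Low.diff {K N : ℕ} {c : V → Fin K} {d : ℕ} {m : (Fin K → Bool) → Dn V N} (h : Low d m)
    (v : V) : Low (d + 1) (H56R.Tm c (sh N) v m +
      H56R.Tm c (fun _ => (0 : Dn V N →ₗ[ZMod 2] Dn V N)) v m) := by
  have h1 : ∀ b, ∀ e : ↥(SN V N), dg e.1 < d → lam c (sh N) v m b e = 0 := by
    intro b e he
    show m (Function.update b (c v) true) e + sh N v (m (Function.update b (c v) false)) e = 0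
    rw [h _ e he, sh_low (h _) e (by omega), add_zero]
  intro b e he
  show (m b e + eb c (sh N) v b (lam c (sh N) v m b) e) +
    (m b e + eb c (fun _ => (0 : Dn V N →ₗ[ZMod 2] Dn V N)) v b
      (lam c (fun _ => (0 : Dn V N →ₗ[ZMod 2] Dn V N)) v m b) e) = 0
  have e1 : (m b e + eb c (sh N) v b (lam c (sh N) v m b) e) +
    (m b e + eb c (fun _ => (0 : Dn V N →ₗ[ZMod 2] Dn V N)) v b
      (lam c (fun _ => (0 : Dn V N →ₗ[ZMod 2] Dn V N)) v m b) e) =
    (m b e + m b e) + (eb c (sh N) v b (lam c (sh N) v m b) e +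
      eb c (fun _ => (0 : Dn V N →ₗ[ZMod 2] Dn V N)) v b
      (lam c (fun _ => (0 : Dn V N →ₗ[ZMod 2] Dn V N)) v m b) e) := by abel
  rw [e1, add_self2 (A := ZMod 2), zero_add]
  unfold eb
  split_ifs
  · show sh N v (lam c (sh N) v m b) e + 0 = 0
    rw [sh_low (h1 b) e he, add_zero]
  · show (m (Function.update b (c v) true) e + sh N v (m (Function.update b (c v) false)) e) +
      (m (Function.update b (c v) true) e + 0) = 0
    rw [sh_low (h _) e he]
    simp [add_self2 (A := ZMod 2)]

/-! ## a two-group -/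

/-- the module -/
abbrev Mo (V : Type) [DecidableEq V] [Fintype V] (K N : ℕ) : Type := (Fin K → Bool) → Dn V N

theorem rep_low {K N : ℕ} {c : V → Fin K} {Γ : SimpleGraph V}
    {ρ : Pool.Agent.Davis.Racg Γ →* (Mo V K N ≃ₗ[ZMod 2] Mo V K N)}
    (hρ : ∀ v, ρ (Pool.Agent.Davis.gen Γ v) = Te c (sh N) v)
    (g : Pool.Agent.Davis.Racg Γ) : ∀ d (m : Mo V K N), Low d m → Low d (ρ g m) := by
  induction g using (cm Γ).toCoxeterSystem.simple_induction with
  | simple i =>
    intro d m h
    have : ρ ((cm Γ).toCoxeterSystem.simple i) = Te c (sh N) i := hρ i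
    rw [this]
    exact h.Tm i
  | one => intro d m h; rw [map_one]; exact h
  | mul g h hg hh =>
    intro d m hm
    rw [map_mul]
    exact hg d _ (hh d m hm)

theorem rep0_low {K N : ℕ} {c : V → Fin K} {Γ : SimpleGraph V}
    {ρ0 : Pool.Agent.Davis.Racg Γ →* (Mo V K N ≃ₗ[ZMod 2] Mo V K N)}
    (hρ0 : ∀ v, ρ0 (Pool.Agent.Davis.gen Γ v) = Te c (fun _ => 0) v)
    (g : Pool.Agent.Davis.Racg Γ) : ∀ d (m : Mo V K N), Low d m → Low d (ρ0 g m) := by
  induction g using (cm Γ).toCoxeterSystem.simple_induction with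
  | simple i =>
    intro d m h
    have : ρ0 ((cm Γ).toCoxeterSystem.simple i) = Te c (fun _ => 0) i := hρ0 i
    rw [this]
    exact h.Tm0 i
  | one => intro d m h; rw [map_one]; exact h
  | mul g h hg hh =>
    intro d m hm
    rw [map_mul]
    exact hg d _ (hh d m hm)

theorem rep_diff {K N : ℕ} {c : V → Fin K} {Γ : SimpleGraph V}
    {ρ ρ0 : Pool.Agent.Davis.Racg Γ →* (Mo V K N ≃ₗ[ZMod 2] Mo V K N)}
    (hρ : ∀ v, ρ (Pool.Agent.Davis.gen Γ v) = Te c (sh N) v)
    (hρ0 : ∀ v, ρ0 (Pool.Agent.Davis.gen Γ v) = Te c (fun _ => 0) v)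
    (g : Pool.Agent.Davis.Racg Γ) :
    ∀ d (m : Mo V K N), Low d m → Low (d + 1) (ρ g m + ρ0 g m) := by
  induction g using (cm Γ).toCoxeterSystem.simple_induction with
  | simple i =>
    intro d m h
    have h1 : ρ ((cm Γ).toCoxeterSystem.simple i) = Te c (sh N) i := hρ i
    have h2 : ρ0 ((cm Γ).toCoxeterSystem.simple i) = Te c (fun _ => 0) i := hρ0 i
    rw [h1, h2]
    exact h.diff i
  | one =>
    intro d m h
    rw [map_one, map_one]
    show Low (d + 1) (m + m)
    rw [add_self2]
    intro b e _; rfl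
  | mul g h hg hh =>
    intro d m hm
    have h1 := hg d (ρ h m) (rep_low hρ h d m hm)
    have h2 := rep0_low hρ0 g (d + 1) _ (hh d m hm)
    have h3 := h1.add h2
    rw [map_add] at h3
    have h4 : ρ g (ρ h m) + ρ0 g (ρ h m) + (ρ0 g (ρ h m) + ρ0 g (ρ0 h m)) =
        ρ (g * h) m + ρ0 (g * h) m := by
      rw [map_mul, map_mul]
      show _ = ρ g (ρ h m) + ρ0 g (ρ0 h m)
      have e1 : ρ g (ρ h m) + ρ0 g (ρ h m) + (ρ0 g (ρ h m) + ρ0 g (ρ0 h m)) =
        (ρ g (ρ h m) + ρ0 g (ρ0 h m)) + (ρ0 g (ρ h m) + ρ0 g (ρ h m)) := by abel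
      rw [e1, add_self2, add_zero]
    rw [h4] at h3
    exact h3

theorem rep0_comm {K N : ℕ} {c : V → Fin K} {Γ : SimpleGraph V}
    {ρ0 : Pool.Agent.Davis.Racg Γ →* (Mo V K N ≃ₗ[ZMod 2] Mo V K N)}
    (hρ0 : ∀ v, ρ0 (Pool.Agent.Davis.gen Γ v) = Te c (fun _ => 0) v)
    (g h : Pool.Agent.Davis.Racg Γ) : ρ0 g * ρ0 h = ρ0 h * ρ0 g := by
  have gens : ∀ v w, ρ0 (Pool.Agent.Davis.gen Γ v) * ρ0 (Pool.Agent.Davis.gen Γ w) =
      ρ0 (Pool.Agent.Davis.gen Γ w) * ρ0 (Pool.Agent.Davis.gen Γ v) := by
    intro v w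
    rw [hρ0, hρ0]
    ext1 m
    show Tm c (fun _ => 0) v (Tm c (fun _ => 0) w m) = Tm c (fun _ => 0) w (Tm c (fun _ => 0) v m)
    by_cases h : c v = c w
    · have : Tm c (fun _ => (0 : Dn V N →ₗ[ZMod 2] Dn V N)) v =
          Tm c (fun _ => (0 : Dn V N →ₗ[ZMod 2] Dn V N)) w := by
        refine LinearMap.ext fun m => ?_
        funext b
        simp only [Tm_apply, eb, lam, h]
      rw [this]
    · exact Tm_comm c _ h (fun x => rfl) m
  have one : ∀ v h, ρ0 (Pool.Agent.Davis.gen Γ v) * ρ0 h = ρ0 h * ρ0 (Pool.Agent.Davis.gen Γ v) := by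
    intro v h
    induction h using (cm Γ).toCoxeterSystem.simple_induction with
    | simple i => exact gens v i
    | one => rw [map_one, mul_one, one_mul]
    | mul a b ha hb => rw [map_mul, ← mul_assoc, ha, mul_assoc, hb, mul_assoc]
  induction g using (cm Γ).toCoxeterSystem.simple_induction with
  | simple i => exact one i h
  | one => rw [map_one, mul_one, one_mul]
  | mul a b ha hb => rw [map_mul, mul_assoc, hb, ← mul_assoc, ha, mul_assoc]

theorem rep0_sq {K N : ℕ} {c : V → Fin K} {Γ : SimpleGraph V}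
    {ρ0 : Pool.Agent.Davis.Racg Γ →* (Mo V K N ≃ₗ[ZMod 2] Mo V K N)}
    (hρ0 : ∀ v, ρ0 (Pool.Agent.Davis.gen Γ v) = Te c (fun _ => 0) v)
    (g : Pool.Agent.Davis.Racg Γ) : ρ0 (g * g) = 1 := by
  induction g using (cm Γ).toCoxeterSystem.simple_induction with
  | simple i =>
    have : ρ0 ((cm Γ).toCoxeterSystem.simple i) = Te c (fun _ => 0) i := hρ0 i
    rw [map_mul, this]
    ext1 m
    exact Tm_sq c _ i m
  | one => rw [mul_one, map_one]
  | mul a b ha hb =>
    rw [map_mul] at ha hb
    rw [map_mul, map_mul]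
    calc ρ0 a * ρ0 b * (ρ0 a * ρ0 b) = ρ0 a * (ρ0 b * ρ0 a) * ρ0 b := by simp only [mul_assoc]
      _ = ρ0 a * (ρ0 a * ρ0 b) * ρ0 b := by rw [rep0_comm hρ0 b a]
      _ = (ρ0 a * ρ0 a) * (ρ0 b * ρ0 b) := by simp only [mul_assoc]
      _ = 1 := by rw [ha, hb, one_mul]

theorem iter_pow {A : Type} [AddCommGroup A] [Module (ZMod 2) A] (X Y : A →ₗ[ZMod 2] A)
    (h : X = 1 + Y) (a : ℕ) : X ^ (2 ^ a) = 1 + Y ^ (2 ^ a) := by
  induction a with
  | zero => simpa using h
  | succ a ih =>
    rw [pow_succ, pow_mul, pow_mul, ih, sq, sq]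
    have : (1 + Y ^ 2 ^ a) * (1 + Y ^ 2 ^ a) =
        1 + Y ^ 2 ^ a * Y ^ 2 ^ a + (Y ^ 2 ^ a + Y ^ 2 ^ a) := by
      noncomm_ring
    rw [this, add_self2, add_zero]

theorem rep_two {K N : ℕ} {c : V → Fin K} {Γ : SimpleGraph V}
    {ρ ρ0 : Pool.Agent.Davis.Racg Γ →* (Mo V K N ≃ₗ[ZMod 2] Mo V K N)}
    (hρ : ∀ v, ρ (Pool.Agent.Davis.gen Γ v) = Te c (sh N) v)
    (hρ0 : ∀ v, ρ0 (Pool.Agent.Davis.gen Γ v) = Te c (fun _ => 0) v) :
    IsPGroup 2 ρ.range := by
  rintro ⟨_, g, rfl⟩
  refine ⟨N + 1, ?_⟩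
  apply Subtype.ext
  show (ρ g) ^ (2 ^ (N + 1)) = 1
  rw [pow_succ', pow_mul, sq, ← map_mul]
  -- the linear map
  set X : Mo V K N →ₗ[ZMod 2] Mo V K N := (ρ (g * g)).toLinearMap with hX
  set Y : Mo V K N →ₗ[ZMod 2] Mo V K N := 1 + X with hY
  have hXY : X = 1 + Y := by rw [hY, ← add_assoc, add_self2, zero_add]
  have hlow : ∀ (d : ℕ) (m : Mo V K N), Low d m → Low (d + 1) (Y m) := by
    intro d m hm
    have h1 := rep_diff hρ hρ0 (g * g) d m hm
    rw [rep0_sq hρ0 g] at h1
    have : Y m = ρ (g * g) m + m := by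
      show m + ρ (g * g) m = _
      rw [add_comm]
    rw [this]
    exact h1
  have hpow : ∀ (n : ℕ) (m : Mo V K N), Low n ((Y ^ n) m) := by
    intro n
    induction n with
    | zero => intro m b e he; exact absurd he (Nat.not_lt_zero _)
    | succ n ih =>
      intro m
      rw [pow_succ']
      exact hlow n _ (ih m)
  have hzero : Y ^ N = 0 := by
    refine LinearMap.ext fun m => ?_
    funext b e
    exact hpow N m b e (mem_SN.1 e.2)
  have hle : N ≤ 2 ^ N := Nat.lt_two_pow_self.le
  have h2 : Y ^ (2 ^ N) = 0 := pow_eq_zero_of_le hle hzero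
  have h3 := iter_pow X Y hXY N
  rw [h2, add_zero] at h3
  have h4 : ∀ (θ : Mo V K N ≃ₗ[ZMod 2] Mo V K N) (n : ℕ) (m : Mo V K N),
      (θ ^ n) m = ((θ.toLinearMap) ^ n) m := by
    intro θ n
    induction n with
    | zero => intro m; rfl
    | succ n ih =>
      intro m
      rw [pow_succ, pow_succ]
      show (θ ^ n) (θ m) = (θ.toLinearMap ^ n) (θ m)
      exact ih _
  ext1 m
  rw [h4, ← hX, h3]
  rfl

/-! ## growth -/

theorem growth (ε : ℝ) (hε : 0 < ε) : ∃ N, 1 ≤ N ∧
    ((((SN V N).filter fun e => dg e + 1 = N).card : ℕ) : ℝ) ≤ ε * (SN V N).card := by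
  by_contra hcon
  push Not at hcon
  set f : ℕ → ℝ := fun N => ((SN V N).card : ℝ) with hf
  have hstep : ∀ N, f N = f (N + 1) - ((((SN V (N + 1)).filter fun e => dg e + 1 = N + 1).card : ℕ) : ℝ) := by
    intro N
    have h1 : (SN V (N + 1)).filter (fun e => ¬ dg e + 1 = N + 1) = SN V N := by
      ext e
      rw [Finset.mem_filter, mem_SN, mem_SN]
      omega
    have h2 := Finset.card_filter_add_card_filter_not (s := SN V (N + 1)) (fun e => dg e + 1 = N + 1)
    rw [h1] at h2
    rw [hf]
    simp only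
    rw [← h2]; push_cast; ring
  have hlt : ∀ N, f N ≤ (1 - ε) * f (N + 1) := by
    intro N
    have h1 := hcon (N + 1) (by omega)
    rw [hstep N]
    have : f (N + 1) = ((SN V (N + 1)).card : ℝ) := rfl
    rw [this]
    linarith
  have hf1 : 0 < f 1 := by
    have : (0 : V →₀ ℕ) ∈ SN V 1 := mem_SN.2 (by simp [dg])
    have : 0 < (SN V 1).card := Finset.card_pos.2 ⟨_, this⟩
    show (0 : ℝ) < ((SN V 1).card : ℝ)
    exact_mod_cast this
  have hfn : ∀ N, 0 ≤ f N := fun N => Nat.cast_nonneg _
  have hε1 : ε < 1 := by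
    by_contra h
    push Not at h
    have h1 := hlt 1
    have h2 : (1 - ε) * f 2 ≤ 0 := mul_nonpos_of_nonpos_of_nonneg (by linarith) (hfn 2)
    linarith
  have hind : ∀ n, f 1 ≤ (1 - ε) ^ n * f (n + 1) := by
    intro n
    induction n with
    | zero => simp
    | succ n ih =>
      refine ih.trans ?_
      rw [pow_succ, mul_assoc]
      exact mul_le_mul_of_nonneg_left (hlt (n + 1)) (pow_nonneg (by linarith) _)
  have hbound : ∀ n : ℕ, f 1 * (1 - ε) ≤ ((n + 1 : ℕ) : ℝ) ^ Fintype.card V * (1 - ε) ^ (n + 1) := by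
    intro n
    have h1 := hind n
    have h2 : f (n + 1) ≤ ((n + 1 : ℕ) : ℝ) ^ Fintype.card V := by
      have := card_SN_le (V := V) (n + 1)
      show ((SN V (n + 1)).card : ℝ) ≤ _
      exact_mod_cast this
    have h3 : (1 - ε) ^ n * f (n + 1) ≤ (1 - ε) ^ n * ((n + 1 : ℕ) : ℝ) ^ Fintype.card V :=
      mul_le_mul_of_nonneg_left h2 (pow_nonneg (by linarith) _)
    calc f 1 * (1 - ε) ≤ ((1 - ε) ^ n * ((n + 1 : ℕ) : ℝ) ^ Fintype.card V) * (1 - ε) :=
          mul_le_mul_of_nonneg_right (h1.trans h3) (by linarith)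
      _ = _ := by ring
  have hlim : Filter.Tendsto (fun n : ℕ => ((n + 1 : ℕ) : ℝ) ^ Fintype.card V * (1 - ε) ^ (n + 1))
      Filter.atTop (nhds 0) := by
    have := tendsto_pow_const_mul_const_pow_of_abs_lt_one (Fintype.card V) (r := 1 - ε)
      (by rw [abs_lt]; constructor <;> linarith)
    exact (Filter.tendsto_add_atTop_iff_nat (f := fun n : ℕ => (n : ℝ) ^ Fintype.card V *
      (1 - ε) ^ n) 1).2 this
  have := ge_of_tendsto' hlim hbound
  have h3 : 0 < f 1 * (1 - ε) := mul_pos hf1 (by linarith)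
  linarith

/-! ## top cycles -/

theorem colours {k : ℕ} {c : V → Fin (k + 1)} {Γ : SimpleGraph V}
    (hc : ∀ v w, Γ.Adj v w → c v ≠ c w) {T : Finset V} (hT : Γ.IsClique (T : Set V)) :
    Set.InjOn c T := by
  intro v hv w hw h
  by_contra hne
  exact hc v w (hT hv hw hne) h

theorem colours_surj {k : ℕ} {c : V → Fin (k + 1)} {Γ : SimpleGraph V}
    (hc : ∀ v w, Γ.Adj v w → c v ≠ c w) {T : Finset V} (hT : Γ.IsClique (T : Set V))
    (hT' : T.card = k + 1) (j : Fin (k + 1)) : ∃ v ∈ T, c v = j := by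
  have h1 : (T.image c).card = k + 1 := by
    rw [Finset.card_image_of_injOn (colours hc hT), hT']
  have h2 : T.image c = Finset.univ := by
    apply Finset.eq_univ_of_card
    rw [h1, Fintype.card_fin]
  have h3 : j ∈ T.image c := by rw [h2]; exact Finset.mem_univ _
  simpa using h3

/-- the all false vector -/
def bo (K : ℕ) : Fin K → Bool := fun _ => false

theorem zm_zero {k N : ℕ} {c : V → Fin (k + 1)} {Γ : SimpleGraph V}
    (hc : ∀ v w, Γ.Adj v w → c v ≠ c w) {m : Finset V → Mo V (k + 1) N}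
    (h1 : ∀ T : Finset V, ¬ (Γ.IsClique (T : Set V) ∧ T.card = k + 1) → m T = 0)
    (h2 : ∀ T, ∀ v ∈ T, Tm c (sh N) v (m T) = m T)
    (h0 : ∀ T, m T (bo (k + 1)) = 0) : m = 0 := by
  funext T
  by_cases hT : Γ.IsClique (T : Set V) ∧ T.card = k + 1
  · have key : ∀ (n : ℕ) (b : Fin (k + 1) → Bool),
        (Finset.univ.filter fun j => b j = true).card = n → m T b = 0 := by
      intro n
      induction n with
      | zero =>
        intro b hb
        have : b = bo (k + 1) := by
          funext j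
          rw [Finset.card_eq_zero, Finset.filter_eq_empty_iff] at hb
          have := hb (Finset.mem_univ j)
          show b j = false
          simpa using this
        rw [this, h0]
      | succ n ih =>
        intro b hb
        obtain ⟨j, hj⟩ : (Finset.univ.filter fun j => b j = true).Nonempty := by
          rw [← Finset.card_pos]; omega
        have hbj : b j = true := (Finset.mem_filter.1 hj).2
        obtain ⟨v, hv, rfl⟩ := colours_surj hc hT.1 hT.2 j
        have h3 := Tm_fix c (sh N) (h2 T v hv) b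
        have h4 : Function.update b (c v) true = b := by
          rw [← hbj, Function.update_eq_self]
        rw [h4] at h3
        rw [h3, ih (Function.update b (c v) false), map_zero]
        have h5 : (Finset.univ.filter fun j => Function.update b (c v) false j = true) =
            (Finset.univ.filter fun j => b j = true).erase (c v) := by
          ext i
          rw [Finset.mem_erase, Finset.mem_filter, Finset.mem_filter]
          by_cases hi : i = c v
          · subst hi; simp
          · simp [hi]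
        rw [h5, Finset.card_erase_of_mem hj, hb]
        rfl
    funext b
    exact key _ b rfl
  · exact h1 T hT

theorem zm_rel {k N : ℕ} {c : V → Fin (k + 1)} {Γ : SimpleGraph V}
    (hc : ∀ v w, Γ.Adj v w → c v ≠ c w) {m : Finset V → Mo V (k + 1) N}
    (h1 : ∀ T : Finset V, ¬ (Γ.IsClique (T : Set V) ∧ T.card = k + 1) → m T = 0)
    (h2 : ∀ T, ∀ v ∈ T, Tm c (sh N) v (m T) = m T)
    (h3 : ∀ τ, ∑ v ∈ Finset.univ \ τ, m (insert v τ) = 0) (τ : Finset V) :
    ∑ v ∈ Finset.univ \ τ, sh N v (m (insert v τ) (bo (k + 1))) = 0 := by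
  by_cases hex : ∃ v₀ ∈ Finset.univ \ τ, Γ.IsClique (insert v₀ τ : Set V) ∧
      (insert v₀ τ).card = k + 1
  · obtain ⟨v₀, hv₀, hcl₀, hcard₀⟩ := hex
    have hv₀' : v₀ ∉ τ := (Finset.mem_sdiff.1 hv₀).2
    rw [Finset.card_insert_of_notMem hv₀'] at hcard₀
    have key : ∀ v ∈ Finset.univ \ τ, sh N v (m (insert v τ) (bo (k + 1))) =
        m (insert v τ) (Function.update (bo (k + 1)) (c v₀) true) := by
      intro v hv
      have hv' : v ∉ τ := (Finset.mem_sdiff.1 hv).2
      by_cases hT : Γ.IsClique ((insert v τ : Finset V) : Set V) ∧ (insert v τ).card = k + 1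
      · have hcv : c v = c v₀ := by
          by_contra hne
          -- the colours of `τ`, `v` and `v₀` are all different
          have hi0 : Set.InjOn c ((insert v₀ τ : Finset V) : Set V) :=
            colours hc (by rw [Finset.coe_insert]; exact hcl₀)
          have hi1 : Set.InjOn c ((insert v τ : Finset V) : Set V) := colours hc hT.1
          have hm0 : c v₀ ∉ τ.image c := by
            intro h
            obtain ⟨w, hw, hcw⟩ := Finset.mem_image.1 h
            have := hi0 (by simp [hw]) (by simp) hcw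
            exact hv₀' (this ▸ hw)
          have hm1 : c v ∉ τ.image c := by
            intro h
            obtain ⟨w, hw, hcw⟩ := Finset.mem_image.1 h
            have := hi1 (by simp [hw]) (by simp) hcw
            exact hv' (this ▸ hw)
          have hcard : (insert (c v) (insert (c v₀) (τ.image c))).card = k + 2 := by
            rw [Finset.card_insert_of_notMem (by simp only [Finset.mem_insert, not_or]; exact ⟨hne, hm1⟩),
              Finset.card_insert_of_notMem hm0, Finset.card_image_of_injOn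
              (fun a ha b hb h => hi0 (by simp [Finset.mem_coe.1 ha]) (by simp [Finset.mem_coe.1 hb]) h)]
            omega
          have := Finset.card_le_univ (insert (c v) (insert (c v₀) (τ.image c)))
          rw [hcard, Fintype.card_fin] at this
          omega
        have h4 := Tm_fix c (sh N) (h2 (insert v τ) v (by simp)) (bo (k + 1))
        have h5 : Function.update (bo (k + 1)) (c v) false = bo (k + 1) := by
          have : bo (k + 1) (c v) = false := rfl
          conv_lhs => rw [← this]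
          exact Function.update_eq_self _ _
        rw [h5] at h4
        rw [← h4, hcv]
      · rw [h1 _ hT]
        simp
    rw [Finset.sum_congr rfl key]
    have := congrFun (h3 τ) (Function.update (bo (k + 1)) (c v₀) true)
    rw [Finset.sum_apply] at this
    exact this
  · push Not at hex
    refine Finset.sum_eq_zero fun v hv => ?_
    rw [h1 (insert v τ) (fun h => hex v hv (by rw [← Finset.coe_insert]; exact h.1) h.2)]
    simp

/-- the polynomial of a truncated polynomial -/
def po {N : ℕ} (y : Dn V N) : MvPolynomial V (ZMod 2) :=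
  ∑ e : ↥(SN V N), MvPolynomial.monomial e.1 (y e)

theorem coeff_po {N : ℕ} (y : Dn V N) (e : V →₀ ℕ) : (po y).coeff e = ex y e := by
  unfold po ex
  rw [MvPolynomial.coeff_sum]
  simp only [MvPolynomial.coeff_monomial]
  split_ifs with h
  · rw [Finset.sum_eq_single ⟨e, h⟩]
    · simp
    · intro b _ hb
      rw [if_neg]
      intro e1
      exact hb (Subtype.ext e1)
    · intro hb; exact absurd (Finset.mem_univ _) hb
  · refine Finset.sum_eq_zero fun b _ => ?_
    rw [if_neg]
    rintro rfl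
    exact h b.2

theorem zm_inj {k N : ℕ} {c : V → Fin (k + 1)} {Γ : SimpleGraph V}
    (hc : ∀ v w, Γ.Adj v w → c v ≠ c w) (hTw : TwInj Γ Finset.univ k)
    {m : Finset V → Mo V (k + 1) N}
    (h1 : ∀ T : Finset V, ¬ (Γ.IsClique (T : Set V) ∧ T.card = k + 1) → m T = 0)
    (h2 : ∀ T, ∀ v ∈ T, Tm c (sh N) v (m T) = m T)
    (h3 : ∀ τ, ∑ v ∈ Finset.univ \ τ, m (insert v τ) = 0)
    (htop : ∀ T (e : ↥(SN V N)), dg e.1 + 1 = N → m T (bo (k + 1)) e = 0) : m = 0 := by
  have hz := hTw (fun T => po (m T (bo (k + 1)))) ?_ ?_ ?_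
  · refine zm_zero hc h1 h2 fun T => ?_
    funext e
    have := congrArg (MvPolynomial.coeff e.1) (congrFun hz T)
    simp only [coeff_po, ex_mem] at this
    rw [this]; simp
  · intro T hT
    refine ⟨Finset.subset_univ _, ?_⟩
    by_contra h
    apply hT
    show po (m T (bo (k + 1))) = 0
    rw [h1 T h]
    ext e
    rw [coeff_po]
    exact (ex_zero e).trans (by simp)
  · intro τ
    ext e
    rw [MvPolynomial.coeff_sum]
    simp only [coeff_po]
    rw [← ex_sum, MvPolynomial.coeff_zero]
    have := congrFun (h3 τ) (bo (k + 1))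
    rw [Finset.sum_apply] at this
    rw [this]
    exact ex_zero e
  · intro τ
    ext e
    rw [MvPolynomial.coeff_sum, MvPolynomial.coeff_zero]
    have hco : ∀ v T, MvPolynomial.coeff e (MvPolynomial.X v * po (m T (bo (k + 1)))) =
        if 0 < e v then ex (m T (bo (k + 1))) (dl e v) else 0 := by
      intro v T
      rw [MvPolynomial.coeff_X_mul']
      by_cases h : 0 < e v
      · rw [if_pos h, if_pos (by rw [Finsupp.mem_support_iff]; omega), coeff_po]; rfl
      · rw [if_neg h, if_neg (by rw [Finsupp.mem_support_iff]; omega)]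
    simp only [hco]
    by_cases he : dg e < N
    · have hrel := zm_rel hc h1 h2 h3 τ
      have h4 : ex (∑ v ∈ Finset.univ \ τ, sh N v (m (insert v τ) (bo (k + 1)))) e = 0 := by
        rw [hrel]; exact ex_zero e
      rw [ex_sum] at h4
      refine Eq.trans ?_ h4
      exact Finset.sum_congr rfl fun v _ => (ex_sh v _ he).symm
    · refine Finset.sum_eq_zero fun v _ => ?_
      split_ifs with h
      · have hd := dg_sub h
        unfold ex
        split_ifs with h5
        · have h6 := mem_SN.1 h5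
          exact htop _ _ (by show dg (dl e v) + 1 = N; omega)
        · rfl
      · rfl

end trunc

/-! ## the theorem -/

theorem rep : RepStmt := by
  intro V _ _ Γ k c hc hTw ε hε
  have hV : (0 : ℝ) < Fintype.card (Finset V) := by exact_mod_cast Fintype.card_pos
  obtain ⟨N, hN, hgr⟩ := growth (V := V) (ε / Fintype.card (Finset V)) (by positivity)
  obtain ⟨ρ, hρ⟩ := exists_rep (D := Dn V N) c (sh N) Γ hc (sh_comm N)
  obtain ⟨ρ0, hρ0⟩ := exists_rep (D := Dn V N) c (fun _ => 0) Γ hc (fun _ _ _ => rfl)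
  have hfin : Module.finrank (ZMod 2) (Mo V (k + 1) N) =
      Fintype.card (Fin (k + 1) → Bool) * (SN V N).card := by
    rw [Module.finrank_pi_fintype]
    simp
  have hcard : 0 < (SN V N).card := by
    have : (0 : V →₀ ℕ) ∈ SN V N := mem_SN.2 (by simp [dg]; omega)
    exact Finset.card_pos.2 ⟨_, this⟩
  have hbits : 1 ≤ Fintype.card (Fin (k + 1) → Bool) := Fintype.card_pos
  refine ⟨Mo V (k + 1) N, inferInstance, inferInstance, inferInstance, ρ, rep_two hρ hρ0, ?_, ?_⟩
  · rw [hfin]
    exact Nat.mul_pos hbits hcard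
  · -- the injection
    set Z := ZM Γ k fun v => (ρ (Pool.Agent.Davis.gen Γ v)).toLinearMap with hZ
    let L : Z →ₗ[ZMod 2] (Finset V → ↥((SN V N).filter fun e => dg e + 1 = N) → ZMod 2) :=
      { toFun := fun m T e => m.1 T (bo (k + 1)) ⟨e.1, (Finset.mem_filter.1 e.2).1⟩
        map_add' := fun _ _ => rfl
        map_smul' := fun _ _ => rfl }
    have hL : Function.Injective L := by
      rw [← LinearMap.ker_eq_bot, LinearMap.ker_eq_bot']
      rintro ⟨m, hm1, hm2, hm3⟩ hm0
      apply Subtype.ext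
      refine zm_inj hc hTw hm1 ?_ hm3 ?_
      · intro T v hv
        have := hm2 T v hv
        simp only [hρ] at this
        exact this
      · intro T e he
        exact congrFun (congrFun hm0 T) ⟨e.1, Finset.mem_filter.2 ⟨e.2, he⟩⟩
    have h1 := LinearMap.finrank_le_finrank_of_injective hL
    have h2 : Module.finrank (ZMod 2)
        (Finset V → ↥((SN V N).filter fun e => dg e + 1 = N) → ZMod 2) =
        Fintype.card (Finset V) * ((SN V N).filter fun e => dg e + 1 = N).card := by
      rw [Module.finrank_pi_fintype]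
      simp
    rw [h2] at h1
    rw [hfin]
    have h3 : (Module.finrank (ZMod 2) Z : ℝ) ≤
        Fintype.card (Finset V) * (((SN V N).filter fun e => dg e + 1 = N).card : ℝ) := by
      exact_mod_cast h1
    refine h3.trans ?_
    calc (Fintype.card (Finset V) : ℝ) * (((SN V N).filter fun e => dg e + 1 = N).card : ℝ)
        ≤ (Fintype.card (Finset V) : ℝ) * (ε / Fintype.card (Finset V) * (SN V N).card) :=
          mul_le_mul_of_nonneg_left hgr hV.le
      _ = ε * (SN V N).card := by field_simp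
      _ ≤ ε * ((Fintype.card (Fin (k + 1) → Bool) : ℝ) * (SN V N).card) := by
          refine mul_le_mul_of_nonneg_left ?_ hε.le
          have : (1 : ℝ) ≤ Fintype.card (Fin (k + 1) → Bool) := by exact_mod_cast hbits
          nlinarith [show (0 : ℝ) ≤ ((SN V N).card : ℝ) from Nat.cast_nonneg _]
      _ = _ := by push_cast; ring

end

end Pool.Agent.Sph.H56R
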